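import Pool.Agent.D0H73.OP.Stm

/-!
# OP, module BASE
-/

set_option autoImplicit false
set_option linter.unusedVariables false

open Finset
open scoped BigOperators

namespace Pool.Agent.D0H69.OP

open Pool.Agent.D0H73.OP
open Pool.Agent.V1192.UOD (V)

theorem cis_norm (θ : ℝ) : ‖cis θ‖ = 1 := by
  unfold cis
  exact Complex.norm_exp_ofReal_mul_I θ

theorem cis_per (θ : ℝ) : cis (θ + 2 * Real.pi) = cis θ := by
  unfold cis
  rw [Complex.ofReal_add, add_mul, Complex.exp_add]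
  push_cast
  rw [Complex.exp_two_pi_mul_I, mul_one]

theorem cis_cont : Continuous cis := by
  unfold cis
  fun_prop

theorem cis_half (θ : ℝ) : ‖cis θ / 2‖ = 1 / 2 := by
  rw [norm_div, cis_norm]
  norm_num

theorem sv_le {n : ℕ} (k : ℕ) {z ζ : ℂ} (hz : ‖z‖ ≤ 1 / 2) (hζ : ‖ζ‖ ≤ 1 / 2) (i : Fin n)
    (hi : k ≤ (i : ℕ)) : ‖sv k z ζ i‖ ≤ 1 / 2 := by
  unfold sv
  split_ifs with h1 h2 h3
  · omega
  · exact hz
  · exact hζ
  · simp

theorem sv_cont {n : ℕ} {X : Type} [TopologicalSpace X] (k : ℕ) {z ζ : X → ℂ} (hz : Continuous z)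
    (hζ : Continuous ζ) (i : Fin n) : Continuous fun q => sv k (z q) (ζ q) i := by
  unfold sv
  split_ifs
  · exact continuous_const
  · exact hz
  · exact hζ
  · exact continuous_const

theorem ph_norm {p : ℕ} [Fact p.Prime] {N : ℕ → ℕ} {n : ℕ} {d : (i : Fin n) → V p (N i) → ℕ}
    {k : ℕ} {χ : H p N n → ℂ} (hχ : IsChr k χ) {s : Fin n → ℂ} (hs : ∀ i, ‖s i‖ ≤ 1)
    (g : H p N n) : ‖Ph d χ s g‖ ≤ 1 := by
  unfold Ph
  rw [norm_mul, hχ.norm, one_mul, norm_prod]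
  refine prod_le_one (fun i _ => norm_nonneg _) fun i _ => ?_
  rw [norm_pow]
  exact pow_le_one₀ (norm_nonneg _) (hs i)

theorem sv_one {n : ℕ} (k : ℕ) {z ζ : ℂ} (hz : ‖z‖ ≤ 1 / 2) (hζ : ‖ζ‖ ≤ 1 / 2) (i : Fin n) :
    ‖sv k z ζ i‖ ≤ 1 := by
  by_cases h : (i : ℕ) < k
  · unfold sv
    rw [if_pos h, norm_one]
  · exact (sv_le k hz hζ i (not_lt.1 h)).trans (by norm_num)

theorem ap_cont {p : ℕ} [Fact p.Prime] {N : ℕ → ℕ} {n : ℕ} (x : H p N n → ℂ)
    (d : (i : Fin n) → V p (N i) → ℕ) (χ : H p N n → ℂ) {X : Type} [TopologicalSpace X] (k : ℕ)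
    {z ζ : X → ℂ} (hz : Continuous z) (hζ : Continuous ζ) :
    Continuous fun q => ap x (Ph d χ (sv k (z q) (ζ q))) := by
  unfold ap Ph
  refine continuous_finset_sum _ fun g _ => continuous_const.mul (continuous_const.mul ?_)
  exact continuous_finset_prod _ fun i _ => (sv_cont k hz hζ i).pow _

theorem t_BASE : S_TOP → S_NUM → S_AAF → S_VAL → S_BASE := by
  rintro ⟨hT1, -, -, hT4⟩ hNUM hAAF hVAL p _ N l x y d m hN hD hF
  obtain ⟨n1, n2, n3, n4, -, -⟩ := hNUM p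
  have hχ : IsChr (p := p) (N := N) (n := l + 2) 0 (fun _ => 1) := by
    refine ⟨fun g h => by simp, fun g => by simp, fun g _ => rfl⟩
  have hp : (0 : ℝ) < p := by exact_mod_cast (Fact.out : p.Prime).pos
  refine ⟨fun _ => 1, hχ, ⟨0, ?_, ?_⟩, ?_⟩
  · unfold tt
    rw [filter_false_of_mem (fun i _ => Nat.not_lt_zero _), sum_empty, Complex.ofReal_zero]
  · rw [abs_zero]
    exact div_nonneg (n1 0).1.le (by positivity)
  · refine hT1 (fun θ => cis θ / 2) _ (cis_cont.div_const 2)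
      (ap_cont x d _ 0 (cis_cont.div_const 2) continuous_const)
      (fun θ => by rw [cis_per]) (fun θ => by rw [cis_per]) (fun θ => ?_) hT4
    have hz := (cis_half θ).le
    have hζ : ‖(0 : ℂ)‖ ≤ 1 / 2 := by simp
    set F := Ph (p := p) (N := N) d (fun _ => (1 : ℂ)) (sv 0 (cis θ / 2) 0) with hFdef
    have hF1 : ∀ g, ‖F g‖ ≤ 1 := fun g => ph_norm hχ (fun i => sv_one 0 hz hζ i) g
    have h1 := hF.near F hF1
    have h2 := (hAAF p N (l + 2) hN).1 F
    have h3 := (hVAL p N (l + 2) d m (fun i => tau p i) 0 (fun _ => 1) (sv 0 (cis θ / 2) 0) hN hD.pkg hχ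
      (fun i hi => absurd hi (Nat.not_lt_zero _)) (fun i hi => sv_le 0 hz hζ i hi)).1
    have h4 : ∑ i : Fin (l + 2), (w p i : ℂ) * sv 0 (cis θ / 2) 0 i = cis θ / 2 := by
      rw [Fin.sum_univ_succ]
      have h5 : ∀ i : Fin (l + 1), (w p (Fin.succ i : Fin (l + 2)) : ℂ) *
          sv 0 (cis θ / 2) 0 (Fin.succ i) = 0 := by
        intro i
        unfold sv
        rw [if_neg (Nat.not_lt_zero _), if_neg (by simp), ite_self, mul_zero]
      rw [sum_congr rfl fun i _ => h5 i, sum_const_zero, add_zero]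
      unfold sv
      rw [if_neg (Nat.not_lt_zero _), if_pos (by simp)]
      simp [w]
    have h6 : ‖ap aa F - cis θ / 2‖ ≤ 4 / 10 ^ 10 := by
      rw [h2, ← h4, ← sum_sub_distrib]
      have h7 : ∀ i : Fin (l + 2), ‖(w p i : ℂ) * Ex i F - (w p i : ℂ) * sv 0 (cis θ / 2) 0 i‖ ≤
          2 * tau p i := by
        intro i
        rw [← mul_sub, norm_mul, Complex.norm_real, Real.norm_of_nonneg (n1 i).1.le]
        exact (mul_le_of_le_one_left (norm_nonneg _) (n1 i).2.1).trans (h3 i (Nat.zero_le _))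
      refine (norm_sum_le _ _).trans ((sum_le_sum fun i _ => h7 i).trans ?_)
      rw [← mul_sum]
      have h8 := n3 0 (l + 2)
      rw [filter_true_of_mem (fun i _ => Nat.zero_le _)] at h8
      have h9 : tau p 0 ≤ 1 / 10 ^ 10 := by
        unfold tau
        have h10 : w p (0 + 1) ^ 4 ≤ 1 := pow_le_one₀ (n1 _).1.le (n1 _).2.1
        exact div_le_div_of_nonneg_right h10 (by positivity)
      linarith
    show ‖ap x F - cis θ / 2‖ < ‖cis θ / 2‖
    rw [cis_half]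
    calc ‖ap x F - cis θ / 2‖ = ‖(ap x F - ap aa F) + (ap aa F - cis θ / 2)‖ := by
          congr 1
          ring
      _ ≤ 1 / 6 + 4 / 10 ^ 10 := (norm_add_le _ _).trans (add_le_add h1 h6)
      _ < 1 / 2 := by norm_num

end Pool.Agent.D0H69.OP
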