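import Pool.Agent.D0H73.OP.Stm

/-!
# OP, module NM: near multiplicativity
-/

set_option autoImplicit false
set_option linter.unusedVariables false

open Finset
open scoped BigOperators

namespace Pool.Agent.D0H69.OP

open Pool.Agent.D0H73.OP
open Pool.Agent.V1192.UOD (V)

theorem prod_sub_le {ι : Type} (s : Finset ι) (a b : ι → ℂ) (ha : ∀ i ∈ s, ‖a i‖ ≤ 1)
    (hb : ∀ i ∈ s, ‖b i‖ ≤ 1) : ‖∏ i ∈ s, a i - ∏ i ∈ s, b i‖ ≤ ∑ i ∈ s, ‖a i - b i‖ := by
  classical
  induction s using Finset.induction_on with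
  | empty => simp
  | insert i s hi ih =>
    rw [prod_insert hi, prod_insert hi, sum_insert hi]
    have h1 := ih (fun j hj => ha j (mem_insert_of_mem hj)) (fun j hj => hb j (mem_insert_of_mem hj))
    have h2 : ‖∏ j ∈ s, a j‖ ≤ 1 := by
      rw [norm_prod]
      exact prod_le_one (fun j _ => norm_nonneg _) fun j hj => ha j (mem_insert_of_mem hj)
    have h3 : a i * ∏ j ∈ s, a j - b i * ∏ j ∈ s, b j =
        (a i - b i) * ∏ j ∈ s, a j + b i * (∏ j ∈ s, a j - ∏ j ∈ s, b j) := by ring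
    rw [h3]
    refine (norm_add_le _ _).trans (add_le_add ?_ ?_)
    · rw [norm_mul]
      exact mul_le_of_le_one_right (norm_nonneg _) h2
    · rw [norm_mul]
      exact (mul_le_of_le_one_left (norm_nonneg _) (hb i (mem_insert_self _ _))).trans h1

theorem bd_nonneg {A : Type} [AddCommGroup A] (d : A → ℕ) (g h : A) : 0 ≤ Bd d g h := by
  unfold Bd
  split_ifs
  · exact le_rfl
  · positivity

theorem pow_diff {A : Type} [AddCommGroup A] {d : A → ℕ} (hd : ∀ u v, d (u + v) ≤ d u + d v)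
    {s : ℂ} (hs : ‖s‖ ≤ 1 / 2) (u v : A) :
    ‖s ^ d (u + v) - s ^ d u * s ^ d v‖ ≤ 2 * Bd d u v := by
  rw [← pow_add]
  unfold Bd
  split_ifs with h
  · rw [h, sub_self, norm_zero, mul_zero]
  · have h1 : ‖s ^ d (u + v)‖ ≤ (1 / 2 : ℝ) ^ d (u + v) := by
      rw [norm_pow]
      exact pow_le_pow_left₀ (norm_nonneg _) hs _
    have h2 : ‖s ^ (d u + d v)‖ ≤ (1 / 2 : ℝ) ^ d (u + v) := by
      rw [norm_pow]
      exact (pow_le_pow_left₀ (norm_nonneg _) hs _).trans
        (pow_le_pow_of_le_one (by norm_num) (by norm_num) (hd u v))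
    calc ‖s ^ d (u + v) - s ^ (d u + d v)‖ ≤ ‖s ^ d (u + v)‖ + ‖s ^ (d u + d v)‖ := norm_sub_le _ _
      _ ≤ _ := by linarith

theorem t_NM : S_NM := by
  intro p _ N n d m τ b c k χ s hP hb hc hχ hs1 hs2
  set F : H p N n → ℂ := Ph d χ s with hF
  have hs3 : ∀ i, ‖s i‖ ≤ 1 := by
    intro i
    by_cases h : (i : ℕ) < k
    · rw [hs1 i h, norm_one]
    · exact (hs2 i (not_lt.1 h)).trans (by norm_num)
  -- the pointwise bound
  have hpt : ∀ g h : H p N n, ‖F (g + h) - F g * F h‖ ≤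
      ∑ i ∈ univ.filter (fun i : Fin n => k ≤ (i : ℕ)), 2 * Bd (d i) (g i) (h i) := by
    intro g h
    have h1 : F (g + h) - F g * F h = (χ g * χ h) * (∏ i, s i ^ d i ((g + h) i) -
        ∏ i, (s i ^ d i (g i) * s i ^ d i (h i))) := by
      rw [hF]
      unfold Ph
      rw [hχ.add, prod_mul_distrib]
      ring
    rw [h1, norm_mul, norm_mul, hχ.norm, hχ.norm, one_mul, one_mul]
    refine (prod_sub_le univ _ _ (fun i _ => ?_) (fun i _ => ?_)).trans ?_
    · rw [norm_pow]
      exact pow_le_one₀ (norm_nonneg _) (hs3 i)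
    · rw [norm_mul, norm_pow, norm_pow]
      exact mul_le_one₀ (pow_le_one₀ (norm_nonneg _) (hs3 i)) (pow_nonneg (norm_nonneg _) _)
        (pow_le_one₀ (norm_nonneg _) (hs3 i))
    · rw [sum_filter]
      refine sum_le_sum fun i _ => ?_
      split_ifs with hik
      · exact pow_diff (hP i).add (hs2 i hik) (g i) (h i)
      · rw [hs1 i (not_le.1 hik)]
        simp
  -- fibres
  have hfib : ∀ (b : H p N n → ℂ) (i : Fin n) (φ : V p (N i) → ℝ),
      ∑ g : H p N n, ‖b g‖ * φ (g i) =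
        ∑ v, (∑ g ∈ (univ : Finset (H p N n)).filter (fun g => g i = v), ‖b g‖) * φ v := by
    intro b i φ
    rw [← sum_fiberwise univ (fun g : H p N n => g i)]
    refine sum_congr rfl fun v _ => ?_
    rw [sum_mul]
    refine sum_congr rfl fun g hg => ?_
    rw [(mem_filter.1 hg).2]
  have hone : ∀ i : Fin n, ∑ g : H p N n, ∑ h : H p N n, ‖b g‖ * ‖c h‖ * Bd (d i) (g i) (h i) ≤ τ i := by
    intro i
    have e1 : ∀ g : H p N n, ∑ h : H p N n, ‖b g‖ * ‖c h‖ * Bd (d i) (g i) (h i) =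
        ‖b g‖ * ∑ v, (∑ h ∈ (univ : Finset (H p N n)).filter (fun h => h i = v), ‖c h‖) *
          Bd (d i) (g i) v := by
      intro g
      rw [← hfib c i (fun v => Bd (d i) (g i) v), mul_sum]
      refine sum_congr rfl fun h _ => ?_
      ring
    rw [sum_congr rfl fun g _ => e1 g,
      hfib b i (fun u => ∑ v, (∑ h ∈ (univ : Finset (H p N n)).filter (fun h => h i = v), ‖c h‖) *
          Bd (d i) u v)]
    refine le_trans ?_ (hP i).mass
    refine sum_le_sum fun u _ => ?_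
    rw [mul_sum]
    refine sum_le_sum fun v _ => ?_
    have k1 := hb i u
    have k2 := hc i v
    have k3 : 0 ≤ ∑ g ∈ (univ : Finset (H p N n)).filter (fun g => g i = u), ‖b g‖ :=
      sum_nonneg fun g _ => norm_nonneg _
    have k4 : 0 ≤ ∑ g ∈ (univ : Finset (H p N n)).filter (fun g => g i = v), ‖c g‖ :=
      sum_nonneg fun g _ => norm_nonneg _
    rw [← mul_assoc]
    exact mul_le_mul_of_nonneg_right (mul_le_mul k1 k2 k4 (k3.trans k1)) (bd_nonneg _ _ _)
  have hsum : ap2 b c F - ap b F * ap c F = ∑ g, ∑ h, b g * c h * (F (g + h) - F g * F h) := by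
    unfold ap2 ap
    rw [sum_mul_sum, ← sum_sub_distrib]
    refine sum_congr rfl fun g _ => ?_
    rw [← sum_sub_distrib]
    refine sum_congr rfl fun h _ => ?_
    ring
  rw [hsum]
  calc ‖∑ g, ∑ h, b g * c h * (F (g + h) - F g * F h)‖ ≤
      ∑ g, ∑ h, ‖b g‖ * ‖c h‖ * ∑ i ∈ univ.filter (fun i : Fin n => k ≤ (i : ℕ)),
        2 * Bd (d i) (g i) (h i) := by
        refine (norm_sum_le _ _).trans (sum_le_sum fun g _ => (norm_sum_le _ _).trans
          (sum_le_sum fun h _ => ?_))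
        rw [norm_mul, norm_mul]
        exact mul_le_mul_of_nonneg_left (hpt g h) (mul_nonneg (norm_nonneg _) (norm_nonneg _))
    _ = ∑ i ∈ univ.filter (fun i : Fin n => k ≤ (i : ℕ)), 2 *
        ∑ g, ∑ h, ‖b g‖ * ‖c h‖ * Bd (d i) (g i) (h i) := by
        have e2 : ∀ g h : H p N n, ‖b g‖ * ‖c h‖ * ∑ i ∈ univ.filter (fun i : Fin n => k ≤ (i : ℕ)),
            2 * Bd (d i) (g i) (h i) = ∑ i ∈ univ.filter (fun i : Fin n => k ≤ (i : ℕ)),
              2 * (‖b g‖ * ‖c h‖ * Bd (d i) (g i) (h i)) := by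
          intro g h
          rw [mul_sum]
          refine sum_congr rfl fun i _ => ?_
          ring
        rw [sum_congr rfl fun g _ => sum_congr rfl fun h _ => e2 g h]
        rw [sum_congr rfl fun g _ => sum_comm, sum_comm]
        refine sum_congr rfl fun i _ => ?_
        rw [mul_sum]
        refine sum_congr rfl fun g _ => ?_
        rw [mul_sum]
    _ ≤ ∑ i ∈ univ.filter (fun i : Fin n => k ≤ (i : ℕ)), 2 * τ i :=
        sum_le_sum fun i _ => mul_le_mul_of_nonneg_left (hone i) (by norm_num)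
    _ = _ := by rw [mul_sum]

end Pool.Agent.D0H69.OP
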